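import Pool.Agent.Rig71.Fin
import Pool.Agent.Rig71.Stmt

/-!
# Rigidity of the conformal invariant `Ỹ` at the value `1/3` (Q1, answer: yes)

`M` is a closed connected smooth 3-manifold (Mathlib: compact, connected, Hausdorff, modelled on
`ℝ³`), `g₀` a smooth Riemannian metric on it (`Bundle.ContMDiffRiemannianMetric`). If `σ₁(g₀) > 0`
and `Ỹ([g₀]) = 1/3`, then `[g₀]` contains a metric of constant sectional curvature `1`.

Ingredients of the proof. For a maximizing sequence `g_i` the principal eigenfunction `h_i` of the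
conformal Laplacian of `g_i` (replaced by an approximate one, which is built from a parametrix)
gives in an integral identity the bound
`vol ∫ |Ric⁰ - (Hess f - df ⊗ df / 2)⁰|² + vol ∫ |df|⁴ ≤ C ((1/3) (∫σ₁)² - vol ∫σ₂)`, `f = 2 log h_i`.
With `g_i = w_i⁻² g₀`, `w_i = v_i⁴`, `max v_i = 1`, the gradients `dv_i` are bounded in `L⁴`, so that
(Morrey, Arzela-Ascoli) `w_i → θ` uniformly, and `θ` is a weak, hence smooth, solution of
`T(θ) = (Hess θ + θ Ric)⁰ = 0`, `θ ≥ 0`, `max θ = 1`. If `θ > 0`, then `θ⁻² g₀` is Einstein. If `θ` has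
zeros, then `θ⁻² g₀` is flat away from them; barriers, a Bochner argument with cut off and a
removable singularity theorem for closed systems give three further solutions vanishing at a zero,
and from these a positive solution.
-/

open scoped ContDiff Manifold
open MeasureTheory

namespace Pool.Agent.Results.MP_71b0e8_gt.RigidityOneThird

/-- the Riemannian measure of a smooth metric exists (so that the functional is defined) -/
theorem exists_isVol {M : Type*} [TopologicalSpace M] [ChartedSpace YR.E M]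
    [IsManifold (𝓡 3) ∞ M] [T2Space M] [CompactSpace M] [MeasurableSpace M] [BorelSpace M]
    (g : YR.RMet M) : ∃ μ : Measure M, Rig71.IsVol g μ := by
  obtain ⟨𝒜, ⟨had⟩⟩ := YR.exists_atl (M := M)
  obtain ⟨𝒢, h⟩ := YR.exists_met had g
  exact ⟨𝒢.vol, YR.isVol_vol had g 𝒢 h⟩

/-- and it is unique -/
theorem isVol_unique {M : Type*} [TopologicalSpace M] [ChartedSpace YR.E M]
    [IsManifold (𝓡 3) ∞ M] [T2Space M] [CompactSpace M] [MeasurableSpace M] [BorelSpace M]
    (g : YR.RMet M) (μ ν : Measure M) (hμ : Rig71.IsVol g μ) (hν : Rig71.IsVol g ν) : μ = ν := by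
  obtain ⟨𝒜, ⟨had⟩⟩ := YR.exists_atl (M := M)
  obtain ⟨𝒢, h⟩ := YR.exists_met had g
  rw [YR.vol_of_isVol had g 𝒢 h μ hμ, YR.vol_of_isVol had g 𝒢 h ν hν]

theorem result.{u} (M : Type u) [TopologicalSpace M] [ChartedSpace YR.E M]
    [IsManifold (𝓡 3) ∞ M] [T2Space M] [CompactSpace M] [ConnectedSpace M]
    [MeasurableSpace M] [BorelSpace M] (g₀ : YR.RMet M)
    (hpos : ∀ p, 0 < Rig71.sigma1 g₀ p) (hY : Rig71.Ytilde g₀ = 1 / 3) :
    ∃ g : YR.RMet M, Rig71.ConfTo g₀ g ∧ Rig71.CurvOne g :=
  YR.q1 M g₀ hpos hY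

end Pool.Agent.Results.MP_71b0e8_gt.RigidityOneThird
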